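import Pool.Agent.K3h88.Loz.Stm

set_option autoImplicit false

namespace Pool.Agent.K3h6.Loz

open Finset Filter Topology Pool.Agent.K3h88.Loz

/-- logarithm of the absolute value of an integer -/
noncomputable def l (z : ℤ) : ℝ := Real.log (z : ℝ)

/-- the odd extension of the logarithm -/
noncomputable def G (z : ℤ) : ℝ := if 0 ≤ z then l z else - l z

theorem l_neg (z : ℤ) : l (-z) = l z := by
  unfold l
  rw [Int.cast_neg, Real.log_neg_eq_log]

theorem l_sub_comm (u e : ℤ) : l (u - e) = l (e - u) := by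
  rw [← l_neg, neg_sub]

theorem l_nonneg (z : ℤ) : 0 ≤ l z := by
  unfold l
  rcases eq_or_ne z 0 with h | h
  · simp [h]
  · rw [← Real.log_abs]
    apply Real.log_nonneg
    rw [← Int.cast_abs]
    exact_mod_cast Int.one_le_abs h

theorem l_le (z : ℤ) (R : ℝ) (hR : 1 ≤ R) (h : |(z : ℝ)| ≤ R) : l z ≤ Real.log R := by
  unfold l
  rcases eq_or_ne z 0 with h0 | h0
  · simp only [h0, Int.cast_zero, Real.log_zero]
    exact Real.log_nonneg hR
  · rw [← Real.log_abs]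
    apply Real.log_le_log _ h
    rw [abs_pos]
    exact_mod_cast h0

theorem G_abs_le (z : ℤ) (R : ℝ) (hR : 1 ≤ R) (h : |(z : ℝ)| ≤ R) :
    -Real.log R ≤ G z ∧ G z ≤ Real.log R := by
  have h1 := l_nonneg z
  have h2 := l_le z R hR h
  unfold G
  split_ifs <;> constructor <;> linarith

theorem G_diff (z : ℤ) : |l z - l (z + 1)| = G (z + 1) - G z := by
  unfold G
  rcases lt_trichotomy z (-1) with h | h | h
  · rw [if_neg (by omega), if_neg (by omega)]
    have : l (z + 1) ≤ l z := by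
      unfold l
      rw [← Real.log_abs, ← Real.log_abs (z : ℝ)]
      have hz : ((z : ℝ)) < -1 := by exact_mod_cast h
      have hz1 : ((z : ℝ)) ≤ -2 := by
        have : z ≤ -2 := by omega
        exact_mod_cast this
      apply Real.log_le_log
      · rw [abs_pos]; push_cast; linarith
      · push_cast
        rw [abs_of_neg (by linarith), abs_of_neg (by linarith)]
        linarith
    rw [abs_of_nonneg (by linarith)]
    ring
  · subst h
    norm_num [l]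
  · rw [if_pos (by omega), if_pos (by omega)]
    have : l z ≤ l (z + 1) := by
      rcases eq_or_ne z 0 with h0 | h0
      · subst h0; norm_num [l]
      · unfold l
        have hz : (0 : ℝ) < z := by
          have : 0 < z := by omega
          exact_mod_cast this
        apply Real.log_le_log hz
        push_cast; linarith
    rw [abs_sub_comm, abs_of_nonneg (by linarith)]

theorem G_mono (z : ℤ) : G z ≤ G (z + 1) := by
  have := G_diff z
  have h2 := abs_nonneg (l z - l (z + 1))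
  linarith

theorem var_le (s : ℤ) (k : ℕ) :
    ∑ i ∈ range k, |l (s + 2 * i) - l (s + 2 * i + 1)| ≤ G (s + 2 * k) - G s := by
  induction k with
  | zero => simp
  | succ k ih =>
    rw [sum_range_succ, G_diff]
    have h1 := G_mono (s + 2 * k + 1)
    have h2 : s + 2 * (k : ℤ) + 1 + 1 = s + 2 * ((k + 1 : ℕ) : ℤ) := by push_cast; ring
    rw [h2] at h1
    linarith

theorem sum_two (f : ℕ → ℝ) (k : ℕ) :
    ∑ j ∈ range (2 * k), f j = ∑ i ∈ range k, (f (2 * i) + f (2 * i + 1)) := by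
  induction k with
  | zero => simp
  | succ k ih =>
    rw [show 2 * (k + 1) = 2 * k + 1 + 1 by ring, sum_range_succ, sum_range_succ, ih,
      sum_range_succ]
    ring

theorem lemA_even (s : ℤ) (k : ℕ) (R : ℝ) (hR : 1 ≤ R) (h1 : |(s : ℝ)| ≤ R)
    (h2 : |((s + 2 * k : ℤ) : ℝ)| ≤ R) :
    |∑ i ∈ range k, l (s + 2 * i) - (∑ j ∈ range (2 * k), l (s + j)) / 2| ≤ Real.log R := by
  have h3 := sum_two (fun j => l (s + j)) k
  have h4 : ∑ i ∈ range k, l (s + 2 * i) - (∑ j ∈ range (2 * k), l (s + j)) / 2 =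
      (∑ i ∈ range k, (l (s + 2 * i) - l (s + 2 * i + 1))) / 2 := by
    rw [h3, sum_sub_distrib, sum_add_distrib]
    push_cast
    simp only [← add_assoc]
    ring
  rw [h4, abs_div, abs_two]
  have h5 := var_le s k
  have h6 := abs_sum_le_sum_abs (fun i : ℕ => l (s + 2 * i) - l (s + 2 * i + 1)) (range k)
  have h7 := G_abs_le s R hR h1
  have h8 := G_abs_le (s + 2 * k) R hR h2
  rw [div_le_iff₀ (by norm_num)]
  linarith [h7.1, h8.2]

theorem lemA_odd (s : ℤ) (k : ℕ) (R : ℝ) (hR : 1 ≤ R) (h1 : |(s : ℝ)| ≤ R)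
    (h2 : |((s + 2 * k : ℤ) : ℝ)| ≤ R) :
    |∑ i ∈ range k, l (s + 2 * i + 1) - (∑ j ∈ range (2 * k), l (s + j)) / 2| ≤ Real.log R := by
  have h3 := sum_two (fun j => l (s + j)) k
  have h4 : ∑ i ∈ range k, l (s + 2 * i + 1) - (∑ j ∈ range (2 * k), l (s + j)) / 2 =
      -((∑ i ∈ range k, (l (s + 2 * i) - l (s + 2 * i + 1))) / 2) := by
    rw [h3, sum_sub_distrib, sum_add_distrib]
    push_cast
    simp only [← add_assoc]
    ring
  rw [h4, abs_neg, abs_div, abs_two]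
  have h5 := var_le s k
  have h6 := abs_sum_le_sum_abs (fun i : ℕ => l (s + 2 * i) - l (s + 2 * i + 1)) (range k)
  have h7 := G_abs_le s R hR h1
  have h8 := G_abs_le (s + 2 * k) R hR h2
  rw [div_le_iff₀ (by norm_num)]
  linarith [h7.1, h8.2]

/-! ### superfactorials -/

noncomputable def lam (k : ℕ) : ℝ := Real.log (sf k)

theorem sf_pos (k : ℕ) : 0 < sf k := prod_pos fun i _ => by exact_mod_cast Nat.factorial_pos i

theorem lam_zero : lam 0 = 0 := by simp [lam, sf]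

theorem lam_succ (k : ℕ) : lam (k + 1) = lam k + Real.log (k.factorial) := by
  unfold lam
  have : sf (k + 1) = sf k * (k.factorial : ℝ) := by unfold sf; rw [prod_range_succ]
  rw [this, Real.log_mul (sf_pos k).ne' (by exact_mod_cast (Nat.factorial_pos k).ne')]

theorem lam_sum (k p : ℕ) :
    ∑ i ∈ range p, Real.log ((k + i).factorial) = lam (k + p) - lam k := by
  induction p with
  | zero => simp
  | succ p ih =>
    rw [sum_range_succ, ih, ← add_assoc, lam_succ]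
    ring

theorem log_fact_sum (k q : ℕ) :
    ∑ j ∈ range q, l (k + 1 + j) = Real.log ((k + q).factorial) - Real.log (k.factorial) := by
  induction q with
  | zero => simp
  | succ q ih =>
    rw [sum_range_succ, ih, ← add_assoc, Nat.factorial_succ]
    push_cast
    rw [Real.log_mul (by positivity) (by exact_mod_cast (Nat.factorial_pos _).ne')]
    unfold l
    push_cast
    rw [show (k : ℝ) + 1 + q = k + q + 1 by ring]
    ring

/-- sum of the logarithms of the distances between two blocks -/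
theorem cross (g p q : ℕ) :
    ∑ i ∈ range p, ∑ j ∈ range q, l (g + 1 + i + j) =
      lam (g + p + q) + lam g - lam (g + p) - lam (g + q) := by
  have h1 : ∀ i : ℕ, ∑ j ∈ range q, l ((g : ℤ) + 1 + i + j) =
      Real.log ((g + q + i).factorial) - Real.log ((g + i).factorial) := by
    intro i
    have := log_fact_sum (g + i) q
    rw [show g + q + i = g + i + q by ring, ← this]
    apply sum_congr rfl
    intro j _
    congr 1
    push_cast; ring
  simp_rw [h1]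
  rw [sum_sub_distrib, lam_sum, lam_sum, show g + q + p = g + p + q by ring]
  ring

theorem diag (p : ℕ) :
    ∑ i ∈ range p, ∑ j ∈ range p, l (i - j) = 2 * lam p := by
  induction p with
  | zero => simp [lam_zero]
  | succ p ih =>
    have h1 : ∑ i ∈ range p, l ((i : ℤ) - p) = Real.log (p.factorial) := by
      have h2 := log_fact_sum 0 p
      rw [← sum_range_reflect] at h2
      simp only [zero_add, Nat.factorial_zero, Nat.cast_one, Real.log_one, sub_zero] at h2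
      rw [← h2]
      apply sum_congr rfl
      intro i hi
      rw [mem_range] at hi
      rw [l_sub_comm]
      congr 1
      push_cast
      omega
    have h3 : ∑ j ∈ range p, l ((p : ℤ) - j) = Real.log (p.factorial) := by
      rw [← h1]
      exact sum_congr rfl fun i _ => l_sub_comm _ _
    have h4 : l ((p : ℤ) - p) = 0 := by simp [l]
    rw [sum_range_succ, lam_succ]
    simp_rw [sum_range_succ _ p]
    rw [sum_add_distrib, ih, h1, h3, h4]
    ring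


/-! ### the finite sets -/

theorem sum_even (f : ℕ → ℝ) (k : ℕ) :
    ∑ i ∈ (range (2 * k)).filter (fun i => Even i), f i = ∑ i ∈ range k, f (2 * i) := by
  rw [sum_filter, sum_two]
  apply sum_congr rfl
  intro i _
  rw [if_pos (by simp), if_neg (by simp [parity_simps]), add_zero]

theorem sum_odd (f : ℕ → ℝ) (k : ℕ) :
    ∑ i ∈ (range (2 * k)).filter (fun i => Odd i), f i = ∑ i ∈ range k, f (2 * i + 1) := by
  rw [sum_filter, sum_two]
  apply sum_congr rfl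
  intro i _
  rw [if_neg (by simp), if_pos (by simp), zero_add]

theorem side_eq (N k₁ k₂ : ℕ) : side N (2 * k₁) (2 * k₂) = N + k₁ + k₂ := by
  unfold side; omega

section

variable (x y k₁ k₂ : ℕ)

/-- the right end of the line -/
def WW : ℕ := x + 2 * y + 2 * k₁ + 2 * k₂

theorem W_eq : 2 * (side (x + y) (2 * k₁) (2 * k₂) : ℤ) - x = (WW x y k₁ k₂ : ℤ) := by
  rw [side_eq]; unfold WW; push_cast; ring

theorem mem_Us (u : ℤ) : u ∈ Us (x + y) (2 * k₁) (2 * k₂) x ↔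
    (∃ i : ℕ, i < k₁ ∧ u = 2 * i) ∨ (∃ i : ℕ, i < k₂ ∧ u = (WW x y k₁ k₂ : ℤ) - 1 - 2 * i) := by
  unfold Us
  rw [W_eq]
  simp only [mem_union, mem_image, mem_filter, mem_range]
  constructor
  · rintro (⟨i, ⟨h1, j, hj⟩, h3⟩ | ⟨i, ⟨h1, j, hj⟩, h3⟩)
    · exact Or.inl ⟨j, by omega, by subst hj; push_cast at h3; omega⟩
    · exact Or.inr ⟨j, by omega, by subst hj; push_cast at h3; omega⟩
  · rintro (⟨i, h1, h2⟩ | ⟨i, h1, h2⟩)
    · exact Or.inl ⟨2 * i, ⟨by omega, by simp⟩, by push_cast; omega⟩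
    · exact Or.inr ⟨2 * i, ⟨by omega, by simp⟩, by push_cast; omega⟩

theorem mem_Ds (u : ℤ) : u ∈ Ds (x + y) (2 * k₁) (2 * k₂) x ↔
    (∃ i : ℕ, i < k₁ ∧ u = 2 * i + 1) ∨
      (∃ i : ℕ, i < k₂ ∧ u = (WW x y k₁ k₂ : ℤ) - 1 - (2 * i + 1)) := by
  unfold Ds
  rw [W_eq]
  simp only [mem_union, mem_image, mem_filter, mem_range]
  constructor
  · rintro (⟨i, ⟨h1, j, hj⟩, h3⟩ | ⟨i, ⟨h1, j, hj⟩, h3⟩)
    · exact Or.inl ⟨j, by omega, by subst hj; push_cast at h3; omega⟩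
    · exact Or.inr ⟨j, by omega, by subst hj; push_cast at h3; omega⟩
  · rintro (⟨i, h1, h2⟩ | ⟨i, h1, h2⟩)
    · exact Or.inl ⟨2 * i + 1, ⟨by omega, by simp⟩, by push_cast; omega⟩
    · exact Or.inr ⟨2 * i + 1, ⟨by omega, by simp⟩, by push_cast; omega⟩

theorem sum_Us (F : ℤ → ℝ) : ∑ u ∈ Us (x + y) (2 * k₁) (2 * k₂) x, F u =
    ∑ i ∈ range k₁, F (2 * i) + ∑ i ∈ range k₂, F ((WW x y k₁ k₂ : ℤ) - 1 - 2 * i) := by
  unfold Us
  rw [W_eq, sum_union, sum_image, sum_image, sum_even (fun i : ℕ => F (i : ℤ)),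
    sum_even (fun i : ℕ => F ((WW x y k₁ k₂ : ℤ) - 1 - i))]
  · push_cast; rfl
  · intro a _ b _ h
    simp only at h
    omega
  · intro a _ b _ h
    simpa using h
  · rw [disjoint_left]
    intro a ha hb
    simp only [mem_image, mem_filter, mem_range] at ha hb
    obtain ⟨i, ⟨h1, _⟩, h2⟩ := ha
    obtain ⟨j, ⟨h3, _⟩, h4⟩ := hb
    unfold WW at h4
    push_cast at h4
    omega

theorem sum_Ds (F : ℤ → ℝ) : ∑ u ∈ Ds (x + y) (2 * k₁) (2 * k₂) x, F u =
    ∑ i ∈ range k₁, F (2 * i + 1) +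
      ∑ i ∈ range k₂, F ((WW x y k₁ k₂ : ℤ) - 1 - (2 * i + 1)) := by
  unfold Ds
  rw [W_eq, sum_union, sum_image, sum_image, sum_odd (fun i : ℕ => F (i : ℤ)),
    sum_odd (fun i : ℕ => F ((WW x y k₁ k₂ : ℤ) - 1 - i))]
  · push_cast; rfl
  · intro a _ b _ h
    simp only at h
    omega
  · intro a _ b _ h
    simpa using h
  · rw [disjoint_left]
    intro a ha hb
    simp only [mem_image, mem_filter, mem_range] at ha hb
    obtain ⟨i, ⟨h1, _⟩, h2⟩ := ha
    obtain ⟨j, ⟨h3, _⟩, h4⟩ := hb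
    unfold WW at h4
    push_cast at h4
    omega

theorem Ico_left : Ico (-(x : ℤ)) 0 = (range x).image (fun j : ℕ => -1 - (j : ℤ)) := by
  ext a
  simp only [mem_Ico, mem_image, mem_range]
  constructor
  · rintro ⟨h1, h2⟩
    exact ⟨(-1 - a).toNat, by omega, by omega⟩
  · rintro ⟨j, h1, h2⟩
    omega

theorem Ico_right (W : ℤ) : Ico W (W + x) = (range x).image (fun j : ℕ => W + (j : ℤ)) := by
  ext a
  simp only [mem_Ico, mem_image, mem_range]
  constructor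
  · rintro ⟨h1, h2⟩
    exact ⟨(a - W).toNat, by omega, by omega⟩
  · rintro ⟨j, h1, h2⟩
    omega

theorem Es_eq : Es (x + y) (2 * k₁) (2 * k₂) x =
    Ico (-(x : ℤ)) 0 ∪ Ds (x + y) (2 * k₁) (2 * k₂) x ∪
      Ico (WW x y k₁ k₂ : ℤ) ((WW x y k₁ k₂ : ℤ) + x) := by
  unfold Es
  rw [W_eq]
  have : 2 * (side (x + y) (2 * k₁) (2 * k₂) : ℤ) = (WW x y k₁ k₂ : ℤ) + x := by
    rw [← W_eq]; ring
  rw [this]

theorem sum_Es (F : ℤ → ℝ) : ∑ u ∈ Es (x + y) (2 * k₁) (2 * k₂) x, F u =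
    ∑ u ∈ Ds (x + y) (2 * k₁) (2 * k₂) x, F u +
      (∑ j ∈ range x, F (-1 - j) + ∑ j ∈ range x, F ((WW x y k₁ k₂ : ℤ) + j)) := by
  rw [Es_eq, sum_union, sum_union, Ico_left, Ico_right, sum_image, sum_image]
  · ring
  · intro a _ b _ h
    simpa using h
  · intro a _ b _ h
    simp only at h
    omega
  · rw [disjoint_left]
    intro a ha hb
    rw [mem_Ds] at hb
    rw [mem_Ico] at ha
    rcases hb with ⟨i, h1, h2⟩ | ⟨i, h1, h2⟩
    · omega
    · unfold WW at h2; push_cast at h2; omega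
  · rw [disjoint_left]
    intro a ha hb
    rw [mem_Ico] at hb
    rw [mem_union, mem_Ico, mem_Ds] at ha
    rcases ha with h | ⟨i, h1, h2⟩ | ⟨i, h1, h2⟩
    · unfold WW at hb; push_cast at hb; omega
    · unfold WW at hb; push_cast at hb; omega
    · omega

theorem ne_of_mem (u e : ℤ) (hu : u ∈ Us (x + y) (2 * k₁) (2 * k₂) x)
    (he : e ∈ Es (x + y) (2 * k₁) (2 * k₂) x) : u ≠ e := by
  rw [Es_eq, mem_union, mem_union, mem_Ico, mem_Ico, mem_Ds] at he
  rw [mem_Us] at hu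
  unfold WW at hu he
  push_cast at hu he
  rcases hu with ⟨i, h1, h2⟩ | ⟨i, h1, h2⟩ <;>
    rcases he with (h3 | ⟨j, h3, h4⟩ | ⟨j, h3, h4⟩) | h3 <;> omega

theorem log_PP : Real.log (PP (Us (x + y) (2 * k₁) (2 * k₂) x) (Es (x + y) (2 * k₁) (2 * k₂) x)) =
    ∑ e ∈ Es (x + y) (2 * k₁) (2 * k₂) x, ∑ u ∈ Us (x + y) (2 * k₁) (2 * k₂) x, l (u - e) := by
  have hne : ∀ u ∈ Us (x + y) (2 * k₁) (2 * k₂) x, ∀ e ∈ Es (x + y) (2 * k₁) (2 * k₂) x,
      |(u : ℝ) - (e : ℝ)| ≠ 0 := by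
    intro u hu e he h
    rw [abs_eq_zero, sub_eq_zero] at h
    exact ne_of_mem x y k₁ k₂ u e hu he (by exact_mod_cast h)
  unfold PP
  rw [Real.log_prod (fun u hu => prod_ne_zero_iff.2 (hne u hu)), sum_comm]
  apply sum_congr rfl
  intro u hu
  rw [Real.log_prod (hne u hu)]
  apply sum_congr rfl
  intro e _
  rw [Real.log_abs]
  unfold l
  push_cast
  rfl


/-- the full sum over the two blocks -/
noncomputable def IU (e : ℤ) : ℝ :=
  ∑ i ∈ range (2 * k₁), l ((i : ℤ) - e) +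
    ∑ i ∈ range (2 * k₂), l ((WW x y k₁ k₂ : ℤ) - 1 - i - e)

theorem est1 (e : ℤ) (h1 : -(x : ℤ) ≤ e) (h2 : e < (WW x y k₁ k₂ : ℤ) + x)
    (hL : 1 ≤ x + y + k₁ + k₂) :
    |∑ u ∈ Us (x + y) (2 * k₁) (2 * k₂) x, l (u - e) - IU x y k₁ k₂ e / 2| ≤
      2 * Real.log (4 * ((x + y + k₁ + k₂ : ℕ) : ℝ)) := by
  have hL' : (1 : ℝ) ≤ ((x + y + k₁ + k₂ : ℕ) : ℝ) := by exact_mod_cast hL
  have hR : (1 : ℝ) ≤ 4 * ((x + y + k₁ + k₂ : ℕ) : ℝ) := by linarith
  have e1 := lemA_even (-e) k₁ _ hR (by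
    rw [← Int.cast_abs]
    have : |-e| ≤ 4 * ((x + y + k₁ + k₂ : ℕ) : ℤ) := by
      unfold WW at h2; push_cast at h2 ⊢; rw [abs_le]; constructor <;> omega
    exact_mod_cast this) (by
    rw [← Int.cast_abs]
    have : |-e + 2 * (k₁ : ℤ)| ≤ 4 * ((x + y + k₁ + k₂ : ℕ) : ℤ) := by
      unfold WW at h2; push_cast at h2 ⊢; rw [abs_le]; constructor <;> omega
    exact_mod_cast this)
  have e2 := lemA_even (e + 1 - (WW x y k₁ k₂ : ℤ)) k₂ _ hR (by
    rw [← Int.cast_abs]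
    have : |e + 1 - (WW x y k₁ k₂ : ℤ)| ≤ 4 * ((x + y + k₁ + k₂ : ℕ) : ℤ) := by
      unfold WW at h2 ⊢; push_cast at h2 ⊢; rw [abs_le]; constructor <;> omega
    exact_mod_cast this) (by
    rw [← Int.cast_abs]
    have : |e + 1 - (WW x y k₁ k₂ : ℤ) + 2 * (k₂ : ℤ)| ≤ 4 * ((x + y + k₁ + k₂ : ℕ) : ℤ) := by
      unfold WW at h2 ⊢; push_cast at h2 ⊢; rw [abs_le]; constructor <;> omega
    exact_mod_cast this)
  rw [sum_Us]
  unfold IU
  have c1 : ∑ i ∈ range k₁, l (2 * (i : ℤ) - e) = ∑ i ∈ range k₁, l (-e + 2 * i) :=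
    sum_congr rfl fun i _ => by congr 1; ring
  have c2 : ∑ i ∈ range k₂, l ((WW x y k₁ k₂ : ℤ) - 1 - 2 * i - e) =
      ∑ i ∈ range k₂, l (e + 1 - (WW x y k₁ k₂ : ℤ) + 2 * i) :=
    sum_congr rfl fun i _ => by rw [← l_neg]; congr 1; ring
  have c3 : ∑ i ∈ range (2 * k₁), l ((i : ℤ) - e) = ∑ i ∈ range (2 * k₁), l (-e + i) :=
    sum_congr rfl fun i _ => by congr 1; ring
  have c4 : ∑ i ∈ range (2 * k₂), l ((WW x y k₁ k₂ : ℤ) - 1 - i - e) =
      ∑ i ∈ range (2 * k₂), l (e + 1 - (WW x y k₁ k₂ : ℤ) + i) :=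
    sum_congr rfl fun i _ => by rw [← l_neg]; congr 1; ring
  rw [c1, c2, c3, c4]
  rw [abs_le] at e1 e2 ⊢
  constructor <;> linarith [e1.1, e1.2, e2.1, e2.2]

theorem est2 (u : ℤ) (h1 : 0 ≤ u) (h2 : u < (WW x y k₁ k₂ : ℤ))
    (hL : 1 ≤ x + y + k₁ + k₂) :
    |∑ e ∈ Ds (x + y) (2 * k₁) (2 * k₂) x, l (u - e) -
      (∑ j ∈ range (2 * k₁), l (u - j) +
        ∑ j ∈ range (2 * k₂), l (u - ((WW x y k₁ k₂ : ℤ) - 1 - j))) / 2| ≤
      2 * Real.log (4 * ((x + y + k₁ + k₂ : ℕ) : ℝ)) := by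
  have hL' : (1 : ℝ) ≤ ((x + y + k₁ + k₂ : ℕ) : ℝ) := by exact_mod_cast hL
  have hR : (1 : ℝ) ≤ 4 * ((x + y + k₁ + k₂ : ℕ) : ℝ) := by linarith
  have e1 := lemA_odd (-u) k₁ _ hR (by
    rw [← Int.cast_abs]
    have : |-u| ≤ 4 * ((x + y + k₁ + k₂ : ℕ) : ℤ) := by
      unfold WW at h2; push_cast at h2 ⊢; rw [abs_le]; constructor <;> omega
    exact_mod_cast this) (by
    rw [← Int.cast_abs]
    have : |-u + 2 * (k₁ : ℤ)| ≤ 4 * ((x + y + k₁ + k₂ : ℕ) : ℤ) := by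
      unfold WW at h2; push_cast at h2 ⊢; rw [abs_le]; constructor <;> omega
    exact_mod_cast this)
  have e2 := lemA_odd (u + 1 - (WW x y k₁ k₂ : ℤ)) k₂ _ hR (by
    rw [← Int.cast_abs]
    have : |u + 1 - (WW x y k₁ k₂ : ℤ)| ≤ 4 * ((x + y + k₁ + k₂ : ℕ) : ℤ) := by
      unfold WW at h2 ⊢; push_cast at h2 ⊢; rw [abs_le]; constructor <;> omega
    exact_mod_cast this) (by
    rw [← Int.cast_abs]
    have : |u + 1 - (WW x y k₁ k₂ : ℤ) + 2 * (k₂ : ℤ)| ≤ 4 * ((x + y + k₁ + k₂ : ℕ) : ℤ) := by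
      unfold WW at h2 ⊢; push_cast at h2 ⊢; rw [abs_le]; constructor <;> omega
    exact_mod_cast this)
  rw [sum_Ds]
  have c1 : ∑ i ∈ range k₁, l (u - (2 * (i : ℤ) + 1)) = ∑ i ∈ range k₁, l (-u + 2 * i + 1) :=
    sum_congr rfl fun i _ => by rw [← l_neg]; congr 1; ring
  have c2 : ∑ i ∈ range k₂, l (u - ((WW x y k₁ k₂ : ℤ) - 1 - (2 * i + 1))) =
      ∑ i ∈ range k₂, l (u + 1 - (WW x y k₁ k₂ : ℤ) + 2 * i + 1) :=
    sum_congr rfl fun i _ => by congr 1; ring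
  have c3 : ∑ i ∈ range (2 * k₁), l (u - (i : ℤ)) = ∑ i ∈ range (2 * k₁), l (-u + i) :=
    sum_congr rfl fun i _ => by rw [← l_neg]; congr 1; ring
  have c4 : ∑ i ∈ range (2 * k₂), l (u - ((WW x y k₁ k₂ : ℤ) - 1 - i)) =
      ∑ i ∈ range (2 * k₂), l (u + 1 - (WW x y k₁ k₂ : ℤ) + i) :=
    sum_congr rfl fun i _ => by congr 1; ring
  rw [c1, c2, c3, c4]
  rw [abs_le] at e1 e2 ⊢
  constructor <;> linarith [e1.1, e1.2, e2.1, e2.2]

/-- the full double sum over the two blocks -/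
noncomputable def QQ : ℝ :=
  ∑ i ∈ range (2 * k₁), (∑ j ∈ range (2 * k₁), l ((i : ℤ) - j) +
      ∑ j ∈ range (2 * k₂), l ((i : ℤ) - ((WW x y k₁ k₂ : ℤ) - 1 - j))) +
    ∑ i ∈ range (2 * k₂), (∑ j ∈ range (2 * k₁), l ((WW x y k₁ k₂ : ℤ) - 1 - i - j) +
      ∑ j ∈ range (2 * k₂), l ((WW x y k₁ k₂ : ℤ) - 1 - i - ((WW x y k₁ k₂ : ℤ) - 1 - j)))

theorem reflect2 (F : ℕ → ℕ → ℝ) (p q : ℕ) :
    ∑ i ∈ range p, ∑ j ∈ range q, F i j =
      ∑ i ∈ range p, ∑ j ∈ range q, F (p - 1 - i) (q - 1 - j) := by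
  rw [← sum_range_reflect]
  apply sum_congr rfl
  intro i _
  rw [← sum_range_reflect]

theorem reflect1 (F : ℕ → ℕ → ℝ) (p q : ℕ) :
    ∑ i ∈ range p, ∑ j ∈ range q, F i j =
      ∑ i ∈ range p, ∑ j ∈ range q, F i (q - 1 - j) := by
  apply sum_congr rfl
  intro i _
  rw [← sum_range_reflect]

theorem QQ_eq : QQ x y k₁ k₂ = 2 * lam (2 * k₁) + 2 * lam (2 * k₂) +
    2 * (lam (WW x y k₁ k₂) + lam (x + 2 * y) - lam (x + 2 * y + 2 * k₁) -
      lam (x + 2 * y + 2 * k₂)) := by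
  unfold QQ
  rw [sum_add_distrib, sum_add_distrib, diag]
  have h1 : ∑ i ∈ range (2 * k₁), ∑ j ∈ range (2 * k₂),
      l ((i : ℤ) - ((WW x y k₁ k₂ : ℤ) - 1 - j)) =
      lam (x + 2 * y + 2 * k₁ + 2 * k₂) + lam (x + 2 * y) - lam (x + 2 * y + 2 * k₁) -
        lam (x + 2 * y + 2 * k₂) := by
    rw [← cross, reflect2]
    apply sum_congr rfl
    intro i hi
    apply sum_congr rfl
    intro j hj
    rw [mem_range] at hi hj
    rw [← l_neg]
    congr 1
    unfold WW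
    push_cast
    omega
  have h2 : ∑ i ∈ range (2 * k₂), ∑ j ∈ range (2 * k₁),
      l ((WW x y k₁ k₂ : ℤ) - 1 - i - j) =
      lam (x + 2 * y + 2 * k₂ + 2 * k₁) + lam (x + 2 * y) - lam (x + 2 * y + 2 * k₂) -
        lam (x + 2 * y + 2 * k₁) := by
    rw [← cross, reflect2]
    apply sum_congr rfl
    intro i hi
    apply sum_congr rfl
    intro j hj
    rw [mem_range] at hi hj
    congr 1
    unfold WW
    push_cast
    omega
  have h3 : ∑ i ∈ range (2 * k₂), ∑ j ∈ range (2 * k₂),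
      l ((WW x y k₁ k₂ : ℤ) - 1 - i - ((WW x y k₁ k₂ : ℤ) - 1 - j)) = 2 * lam (2 * k₂) := by
    rw [← diag]
    apply sum_congr rfl
    intro i hi
    apply sum_congr rfl
    intro j hj
    rw [← l_neg]
    congr 1
    ring
  rw [h1, h2, h3]
  rw [show x + 2 * y + 2 * k₂ + 2 * k₁ = WW x y k₁ k₂ by unfold WW; ring,
    show x + 2 * y + 2 * k₁ + 2 * k₂ = WW x y k₁ k₂ by unfold WW; ring]
  ring

theorem BL_eq : ∑ j ∈ range x, IU x y k₁ k₂ (-1 - j) =
    (lam (x + 2 * k₁) - lam x - lam (2 * k₁)) +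
      (lam (WW x y k₁ k₂ + x) + lam (x + 2 * y + 2 * k₁) - lam (x + 2 * y + 2 * k₁ + x) -
        lam (WW x y k₁ k₂)) := by
  unfold IU
  rw [sum_add_distrib]
  have h1 : ∑ j ∈ range x, ∑ i ∈ range (2 * k₁), l ((i : ℤ) - (-1 - j)) =
      lam (0 + x + 2 * k₁) + lam 0 - lam (0 + x) - lam (0 + 2 * k₁) := by
    rw [← cross]
    apply sum_congr rfl
    intro i hi
    apply sum_congr rfl
    intro j hj
    congr 1
    push_cast
    ring
  have h2 : ∑ j ∈ range x, ∑ i ∈ range (2 * k₂), l ((WW x y k₁ k₂ : ℤ) - 1 - i - (-1 - j)) =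
      lam (x + 2 * y + 2 * k₁ + x + 2 * k₂) + lam (x + 2 * y + 2 * k₁) -
        lam (x + 2 * y + 2 * k₁ + x) - lam (x + 2 * y + 2 * k₁ + 2 * k₂) := by
    rw [← cross, reflect1]
    apply sum_congr rfl
    intro i hi
    apply sum_congr rfl
    intro j hj
    rw [mem_range] at hi hj
    congr 1
    unfold WW
    push_cast
    omega
  rw [h1, h2, lam_zero]
  rw [show x + 2 * y + 2 * k₁ + x + 2 * k₂ = WW x y k₁ k₂ + x by unfold WW; ring,
    show x + 2 * y + 2 * k₁ + 2 * k₂ = WW x y k₁ k₂ by unfold WW; ring]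
  simp only [zero_add]
  ring

theorem BR_eq : ∑ j ∈ range x, IU x y k₁ k₂ ((WW x y k₁ k₂ : ℤ) + j) =
    (lam (WW x y k₁ k₂ + x) + lam (x + 2 * y + 2 * k₂) - lam (x + 2 * y + 2 * k₂ + x) -
        lam (WW x y k₁ k₂)) + (lam (x + 2 * k₂) - lam x - lam (2 * k₂)) := by
  unfold IU
  rw [sum_add_distrib]
  have h1 : ∑ j ∈ range x, ∑ i ∈ range (2 * k₂),
      l ((WW x y k₁ k₂ : ℤ) - 1 - i - ((WW x y k₁ k₂ : ℤ) + j)) =
      lam (0 + x + 2 * k₂) + lam 0 - lam (0 + x) - lam (0 + 2 * k₂) := by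
    rw [← cross]
    apply sum_congr rfl
    intro i hi
    apply sum_congr rfl
    intro j hj
    rw [← l_neg]
    congr 1
    push_cast
    ring
  have h2 : ∑ j ∈ range x, ∑ i ∈ range (2 * k₁), l ((i : ℤ) - ((WW x y k₁ k₂ : ℤ) + j)) =
      lam (x + 2 * y + 2 * k₂ + x + 2 * k₁) + lam (x + 2 * y + 2 * k₂) -
        lam (x + 2 * y + 2 * k₂ + x) - lam (x + 2 * y + 2 * k₂ + 2 * k₁) := by
    rw [← cross, reflect1]
    apply sum_congr rfl
    intro i hi
    apply sum_congr rfl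
    intro j hj
    rw [mem_range] at hi hj
    rw [← l_neg]
    congr 1
    unfold WW
    push_cast
    omega
  rw [h1, h2, lam_zero]
  rw [show x + 2 * y + 2 * k₂ + x + 2 * k₁ = WW x y k₁ k₂ + x by unfold WW; ring,
    show x + 2 * y + 2 * k₂ + 2 * k₁ = WW x y k₁ k₂ by unfold WW; ring]
  simp only [zero_add]
  ring

theorem Xi_eq : Xi (x + y) (2 * k₁) (2 * k₂) x =
    QQ x y k₁ k₂ / 2 + ∑ j ∈ range x, IU x y k₁ k₂ (-1 - j) +
      ∑ j ∈ range x, IU x y k₁ k₂ ((WW x y k₁ k₂ : ℤ) + j) := by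
  rw [QQ_eq, BL_eq, BR_eq]
  unfold Xi
  rw [side_eq]
  change lam _ + lam _ - 2 * lam _ + lam _ - lam _ + 2 * lam _ - lam _ - lam _ = _
  rw [show 2 * (x + y) - x = x + 2 * y by omega,
    show 2 * (x + y + k₁ + k₂) - x = WW x y k₁ k₂ by unfold WW; omega,
    show 2 * (x + y + k₁ + k₂) = WW x y k₁ k₂ + x by unfold WW; omega,
    show WW x y k₁ k₂ + x - 2 * k₁ = x + 2 * y + 2 * k₂ + x by unfold WW; omega,
    show WW x y k₁ k₂ + x - 2 * k₂ = x + 2 * y + 2 * k₁ + x by unfold WW; omega]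
  ring

theorem main (hL : 1 ≤ x + y + k₁ + k₂) :
    |Real.log (PP (Us (x + y) (2 * k₁) (2 * k₂) x) (Es (x + y) (2 * k₁) (2 * k₂) x)) -
      Xi (x + y) (2 * k₁) (2 * k₂) x / 2| ≤
      4 * ((x + y + k₁ + k₂ : ℕ) : ℝ) * Real.log (4 * ((x + y + k₁ + k₂ : ℕ) : ℝ)) := by
  set LL : ℝ := ((x + y + k₁ + k₂ : ℕ) : ℝ) with hLL
  have hL' : (1 : ℝ) ≤ LL := by rw [hLL]; exact_mod_cast hL
  have hlog : 0 ≤ Real.log (4 * LL) := Real.log_nonneg (by linarith)
  rw [log_PP]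
  -- step 1
  have s1 : |∑ e ∈ Es (x + y) (2 * k₁) (2 * k₂) x,
        (∑ u ∈ Us (x + y) (2 * k₁) (2 * k₂) x, l (u - e) - IU x y k₁ k₂ e / 2)| ≤
      ((k₁ : ℝ) + k₂ + 2 * x) * (2 * Real.log (4 * LL)) := by
    refine (abs_sum_le_sum_abs _ _).trans ?_
    have : ∑ e ∈ Es (x + y) (2 * k₁) (2 * k₂) x, (2 * Real.log (4 * LL)) =
        ((k₁ : ℝ) + k₂ + 2 * x) * (2 * Real.log (4 * LL)) := by
      rw [sum_Es x y k₁ k₂ (fun _ => 2 * Real.log (4 * LL)), sum_Ds]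
      simp only [sum_const, card_range, nsmul_eq_mul]
      ring
    rw [← this]
    apply sum_le_sum
    intro e he
    apply est1 x y k₁ k₂ e _ _ hL
    · rw [Es_eq, mem_union, mem_union, mem_Ico, mem_Ico, mem_Ds] at he
      unfold WW at he
      push_cast at he
      rcases he with (h3 | ⟨j, h3, h4⟩ | ⟨j, h3, h4⟩) | h3 <;> omega
    · rw [Es_eq, mem_union, mem_union, mem_Ico, mem_Ico, mem_Ds] at he
      unfold WW at he ⊢
      push_cast at he ⊢
      rcases he with (h3 | ⟨j, h3, h4⟩ | ⟨j, h3, h4⟩) | h3 <;> omega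
  rw [sum_sub_distrib, ← sum_div, sum_Es x y k₁ k₂ (IU x y k₁ k₂)] at s1
  -- step 2
  have s2 : |∑ e ∈ Ds (x + y) (2 * k₁) (2 * k₂) x, IU x y k₁ k₂ e - QQ x y k₁ k₂ / 2| ≤
      (2 * (k₁ : ℝ) + 2 * k₂) * (2 * Real.log (4 * LL)) := by
    have : ∑ e ∈ Ds (x + y) (2 * k₁) (2 * k₂) x, IU x y k₁ k₂ e - QQ x y k₁ k₂ / 2 =
        ∑ i ∈ range (2 * k₁), (∑ e ∈ Ds (x + y) (2 * k₁) (2 * k₂) x, l ((i : ℤ) - e) -
          (∑ j ∈ range (2 * k₁), l ((i : ℤ) - j) +
            ∑ j ∈ range (2 * k₂), l ((i : ℤ) - ((WW x y k₁ k₂ : ℤ) - 1 - j))) / 2) +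
        ∑ i ∈ range (2 * k₂), (∑ e ∈ Ds (x + y) (2 * k₁) (2 * k₂) x,
            l ((WW x y k₁ k₂ : ℤ) - 1 - i - e) -
          (∑ j ∈ range (2 * k₁), l ((WW x y k₁ k₂ : ℤ) - 1 - i - j) +
            ∑ j ∈ range (2 * k₂),
              l ((WW x y k₁ k₂ : ℤ) - 1 - i - ((WW x y k₁ k₂ : ℤ) - 1 - j))) / 2) := by
      unfold IU QQ
      rw [sum_add_distrib, sum_comm (t := range (2 * k₁)), sum_comm (t := range (2 * k₂)),
        sum_sub_distrib, sum_sub_distrib, ← sum_div, ← sum_div]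
      ring
    rw [this]
    refine (abs_add_le _ _).trans ?_
    have t1 : |∑ i ∈ range (2 * k₁), (∑ e ∈ Ds (x + y) (2 * k₁) (2 * k₂) x, l ((i : ℤ) - e) -
          (∑ j ∈ range (2 * k₁), l ((i : ℤ) - j) +
            ∑ j ∈ range (2 * k₂), l ((i : ℤ) - ((WW x y k₁ k₂ : ℤ) - 1 - j))) / 2)| ≤
        (2 * (k₁ : ℝ)) * (2 * Real.log (4 * LL)) := by
      refine (abs_sum_le_sum_abs _ _).trans ?_
      have : ∑ i ∈ range (2 * k₁), (2 * Real.log (4 * LL)) =
          (2 * (k₁ : ℝ)) * (2 * Real.log (4 * LL)) := by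
        simp only [sum_const, card_range, nsmul_eq_mul]
        push_cast; ring
      rw [← this]
      apply sum_le_sum
      intro i hi
      rw [mem_range] at hi
      apply est2 x y k₁ k₂ i _ _ hL
      · omega
      · unfold WW; push_cast; omega
    have t2 : |∑ i ∈ range (2 * k₂), (∑ e ∈ Ds (x + y) (2 * k₁) (2 * k₂) x,
            l ((WW x y k₁ k₂ : ℤ) - 1 - i - e) -
          (∑ j ∈ range (2 * k₁), l ((WW x y k₁ k₂ : ℤ) - 1 - i - j) +
            ∑ j ∈ range (2 * k₂),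
              l ((WW x y k₁ k₂ : ℤ) - 1 - i - ((WW x y k₁ k₂ : ℤ) - 1 - j))) / 2)| ≤
        (2 * (k₂ : ℝ)) * (2 * Real.log (4 * LL)) := by
      refine (abs_sum_le_sum_abs _ _).trans ?_
      have : ∑ i ∈ range (2 * k₂), (2 * Real.log (4 * LL)) =
          (2 * (k₂ : ℝ)) * (2 * Real.log (4 * LL)) := by
        simp only [sum_const, card_range, nsmul_eq_mul]
        push_cast; ring
      rw [← this]
      apply sum_le_sum
      intro i hi
      rw [mem_range] at hi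
      apply est2 x y k₁ k₂ _ _ _ hL
      · unfold WW; push_cast; omega
      · unfold WW; push_cast; omega
    linarith
  rw [Xi_eq]
  have hb : (k₁ : ℝ) + k₂ + x ≤ LL := by
    rw [hLL]; push_cast
    have : (0 : ℝ) ≤ y := Nat.cast_nonneg y
    linarith
  have hb2 : ((k₁ : ℝ) + k₂ + x) * Real.log (4 * LL) ≤ LL * Real.log (4 * LL) :=
    mul_le_mul_of_nonneg_right hb hlog
  rw [abs_le] at s1 s2 ⊢
  constructor <;> nlinarith [s1.1, s1.2, s2.1, s2.2]

end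

/-- brick H2 -/
theorem h2 : StmH2 := by
  refine ⟨4, ?_⟩
  intro N m n x hm hn hx hside
  obtain ⟨k₁, rfl⟩ := hm
  obtain ⟨k₂, rfl⟩ := hn
  obtain ⟨y, rfl⟩ := Nat.exists_eq_add_of_le hx
  rw [← two_mul, ← two_mul] at *
  rw [side_eq] at *
  exact main x y k₁ k₂ hside

end Pool.Agent.K3h6.Loz
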